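import Mathlib

namespace Pool.Agent.H.MP_fac573_co

open Set Metric Real Filter Topology

/-- Unit vector of direction `θ`. -/
noncomputable def u (θ : ℝ) : ℂ := ⟨cos θ, sin θ⟩

/-- Real inner product. -/
def ip (a b : ℂ) : ℝ := a.re * b.re + a.im * b.im

@[simp] theorem u_re (θ : ℝ) : (u θ).re = cos θ := rfl
@[simp] theorem u_im (θ : ℝ) : (u θ).im = sin θ := rfl

theorem nsq (a : ℂ) : ‖a‖ ^ 2 = a.re ^ 2 + a.im ^ 2 := by
  rw [Complex.sq_norm, Complex.normSq_apply]; ring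

theorem u_norm (θ : ℝ) : ‖u θ‖ = 1 :=
  (sq_eq_sq₀ (norm_nonneg _) zero_le_one).1 (by rw [nsq]; simp)

theorem ip_u (a b : ℝ) : ip (u a) (u b) = cos (a - b) := by simp [ip, cos_sub]

theorem ip_le (a b : ℂ) : ip a b ≤ ‖a‖ * ‖b‖ :=
  (abs_le_of_sq_le_sq' (by
    rw [mul_pow, nsq, nsq, ip]; nlinarith [sq_nonneg (a.re * b.im - a.im * b.re)])
    (by positivity)).2

theorem u_cont : Continuous u := by
  have : u = fun θ => (cos θ : ℂ) + (sin θ : ℂ) * Complex.I := by
    ext θ; simp [Complex.ext_iff, -Complex.ofReal_cos, -Complex.ofReal_sin]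
  rw [this]; fun_prop

theorem u_eq (θ : ℝ) : u θ = circleMap 0 1 θ := by
  simp [circleMap, Complex.ext_iff, Complex.exp_ofReal_mul_I_re, Complex.exp_ofReal_mul_I_im]

theorem u_per (θ : ℝ) : u (θ + 2 * π) = u θ := by simp [u]

theorem u_pi (θ : ℝ) : u (θ + π) = -u θ := by simp [Complex.ext_iff]

theorem ang (θ : ℝ) {z : ℂ} (hz : ‖z‖ = 1) : ∃ φ, -π < φ ∧ φ ≤ π ∧ z = u (θ + φ) := by
  have h0 : u θ ≠ 0 := by rw [← norm_ne_zero_iff, u_norm]; exact one_ne_zero
  have h1 : ‖z / u θ‖ = 1 := by rw [norm_div, hz, u_norm, div_one]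
  refine ⟨(z / u θ).arg, Complex.neg_pi_lt_arg _, Complex.arg_le_pi _, ?_⟩
  have h2 := Complex.norm_mul_cos_add_sin_mul_I (z / u θ)
  rw [h1, Complex.ofReal_one, one_mul, eq_div_iff h0] at h2
  generalize (z / u θ).arg = φ at h2
  rw [← h2]
  simp [Complex.ext_iff, cos_add, sin_add, Complex.cos_ofReal_re, Complex.sin_ofReal_re,
    Complex.cos_ofReal_im, Complex.sin_ofReal_im]
  constructor <;> ring

theorem dist_iff {r : ℝ} (hr : 0 ≤ r) (q v : ℂ) (θ : ℝ) :
    dist q (v - r • u θ) ≤ r ↔ ‖q - v‖ ^ 2 + 2 * r * ip (q - v) (u θ) ≤ 0 := by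
  rw [← sq_le_sq₀ dist_nonneg hr, dist_eq_norm, nsq, nsq]
  have := sin_sq_add_cos_sq θ
  simp only [ip, Complex.sub_re, Complex.sub_im, Complex.smul_re, Complex.smul_im, u_re, u_im,
    smul_eq_mul]
  constructor <;> intro h <;> nlinarith

theorem lens {r a b θ : ℝ} (hr : 0 ≤ r) (h1 : a ≤ θ) (h2 : θ ≤ b) (hab : a < b) (h3 : b - a < π)
    {q v : ℂ} (ha : dist q (v - r • u a) ≤ r) (hb : dist q (v - r • u b) ≤ r) :
    dist q (v - r • u θ) ≤ r := by
  rw [dist_iff hr] at *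
  have s0 := sin_pos_of_pos_of_lt_pi (sub_pos.2 hab) h3
  have s1 : 0 ≤ sin (b - θ) := sin_nonneg_of_nonneg_of_le_pi (by linarith) (by linarith)
  have s2 : 0 ≤ sin (θ - a) := sin_nonneg_of_nonneg_of_le_pi (by linarith) (by linarith)
  have s3 : sin (b - a) ≤ sin (b - θ) + sin (θ - a) := by
    rw [show b - a = (b - θ) + (θ - a) by ring, sin_add]
    nlinarith [cos_le_one (θ - a), cos_le_one (b - θ)]
  have e : sin (b - a) * ip (q - v) (u θ) =
      sin (b - θ) * ip (q - v) (u a) + sin (θ - a) * ip (q - v) (u b) := by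
    simp only [ip, u_re, u_im, sin_sub]; ring
  refine le_of_mul_le_mul_left ?_ s0
  have := mul_le_mul_of_nonneg_left ha s1
  have := mul_le_mul_of_nonneg_left hb s2
  have := mul_le_mul_of_nonneg_right s3 (sq_nonneg ‖q - v‖)
  have := congrArg (2 * r * ·) e
  linarith

theorem descent (C : Finset ℂ) {x d : ℂ} {R : ℝ} (hR : 0 ≤ R) (h : ∀ c ∈ C, dist x c ≤ R)
    (hd : ∀ c ∈ C, dist x c = R → ip d (x - c) < 0) :
    ∃ ε : ℝ, 0 < ε ∧ ∀ c ∈ C, dist (x + ε • d) c < R := by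
  have : ∀ᶠ ε : ℝ in 𝓝[>] 0, ∀ c ∈ C, dist (x + ε • d) c < R := by
    rw [eventually_all_finset]
    intro c hc
    rcases (h c hc).eq_or_lt with e | e
    · have k : ∀ᶠ ε : ℝ in 𝓝 0, ε * ‖d‖ ^ 2 + 2 * ip d (x - c) < 0 :=
        ContinuousAt.eventually_lt (by fun_prop) continuousAt_const (by have := hd c hc e; simp; linarith)
      filter_upwards [nhdsWithin_le_nhds k, self_mem_nhdsWithin] with ε h1 h2
      have h3 : (0 : ℝ) < ε := h2
      rw [← sq_lt_sq₀ dist_nonneg hR, ← e, dist_eq_norm, dist_eq_norm, nsq, nsq]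
      rw [nsq] at h1
      simp only [ip, Complex.sub_re, Complex.sub_im, Complex.smul_re, Complex.smul_im,
        Complex.add_re, Complex.add_im, smul_eq_mul] at *
      nlinarith
    · exact nhdsWithin_le_nhds (ContinuousAt.eventually_lt (x₀ := (0 : ℝ))
        (f := fun ε : ℝ => dist (x + ε • d) c) (by fun_prop) continuousAt_const (by simpa using e))
  obtain ⟨ε, h1, h2⟩ := (this.and self_mem_nhdsWithin).exists
  exact ⟨ε, h2, h1⟩

theorem gram {N ρ x y : ℝ} (hN : 0 < N) (h0 : -N < 2 * ρ) (hx : ρ ≤ x) (hy : ρ ≤ y)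
    (G : N ^ 3 + 2 * ρ * x * y - N * (ρ ^ 2 + x ^ 2 + y ^ 2) = 0) : 0 < x + y := by
  by_contra k
  have a1 : x ^ 2 ≤ ρ ^ 2 := by nlinarith
  have a2 : y ^ 2 ≤ ρ ^ 2 := by nlinarith
  have a3 : x * y ≤ ρ ^ 2 := by nlinarith [sq_nonneg (x - y)]
  have a4 : ρ ≤ 0 := by linarith
  have a5 : ρ * ρ ^ 2 ≤ ρ * (x * y) := mul_le_mul_of_nonpos_left a3 a4
  have a6 : 0 < (N + 2 * ρ) * (N - ρ) ^ 2 := mul_pos (by linarith) (pow_pos (by linarith) 2)
  nlinarith [mul_le_mul_of_nonneg_left a1 hN.le, mul_le_mul_of_nonneg_left a2 hN.le]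

variable {C : Finset ℂ} {t : ℝ}

theorem jung (hC : C.Nonempty) (ht : t < √3) (hd : ∀ x ∈ C, ∀ y ∈ C, dist x y ≤ t) :
    ∃ p : ℂ, ∀ c ∈ C, dist p c ≤ 1 := by
  classical
  obtain ⟨c0, hc0⟩ := hC
  let F : ℂ → ℝ := fun p => C.sup' ⟨c0, hc0⟩ fun c => dist p c
  have cF : Continuous F := Continuous.finset_sup'_apply _ fun c _ => by fun_prop
  obtain ⟨p, hp⟩ := cF.exists_forall_le (tendsto_atTop_mono (fun p => Finset.le_sup' _ hc0)
    (tendsto_dist_right_cocompact_atTop c0))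
  have hF : ∀ c ∈ C, dist p c ≤ F p := fun c hc => Finset.le_sup' (fun c => dist p c) hc
  by_contra k
  have R1 : 1 < F p := by
    by_contra k2
    exact k ⟨p, fun c hc => (hF c hc).trans (not_lt.1 k2)⟩
  obtain ⟨c1, hc1, e1⟩ := Finset.exists_mem_eq_sup' ⟨c0, hc0⟩ fun c => dist p c
  let T := C.filter fun c => dist p c = F p
  obtain ⟨⟨a, b⟩, hab, hm⟩ := (T ×ˢ T).exists_min_image (fun q => ip (p - q.1) (p - q.2))
    ⟨(c1, c1), by simp [T, hc1, F, e1]⟩
  simp only [T, Finset.mem_product, Finset.mem_filter, Prod.forall] at hab hm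
  obtain ⟨ε, -, h⟩ := descent C (d := -((p - a) + (p - b))) (by linarith) hF fun c hc e => by
    have n : ∀ c, dist p c = F p → (p - c).re ^ 2 + (p - c).im ^ 2 = F p ^ 2 := fun c e => by
      rw [← nsq, ← e, dist_eq_norm]
    have t0 := (dist_nonneg.trans (hd _ hc0 _ hc0))
    have t3 : t ^ 2 < 3 := (Real.lt_sqrt t0).1 ht
    have d2 : ‖(p - b) - (p - a)‖ ^ 2 ≤ t ^ 2 := by
      rw [sub_sub_sub_cancel_left, ← dist_eq_norm]; gcongr; exact hd _ hab.1.1 _ hab.2.1
    have na := n a hab.1.2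
    have nb := n b hab.2.2
    have nc := n c e
    have x1 := hm a c ⟨hab.1, hc, e⟩
    have x2 := hm b c ⟨hab.2, hc, e⟩
    generalize p - a = z1 at *
    generalize p - b = z2 at *
    generalize p - c = z at *
    rw [nsq] at d2
    simp only [Complex.sub_re, Complex.sub_im] at d2
    have := gram (N := F p ^ 2) (by positivity) (by simp only [ip]; nlinarith) x1 x2 (by
      simp only [ip]
      have G : (z1.re ^ 2 + z1.im ^ 2) * (z2.re ^ 2 + z2.im ^ 2) * (z.re ^ 2 + z.im ^ 2) +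
        2 * (z1.re * z2.re + z1.im * z2.im) * (z1.re * z.re + z1.im * z.im) *
          (z2.re * z.re + z2.im * z.im) -
        ((z.re ^ 2 + z.im ^ 2) * (z1.re * z2.re + z1.im * z2.im) ^ 2 +
          (z2.re ^ 2 + z2.im ^ 2) * (z1.re * z.re + z1.im * z.im) ^ 2 +
          (z1.re ^ 2 + z1.im ^ 2) * (z2.re * z.re + z2.im * z.im) ^ 2) = 0 := by ring
      rw [na, nb, nc] at G
      linarith)
    simp only [ip, Complex.neg_re, Complex.neg_im, Complex.add_re, Complex.add_im] at *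
    linarith
  exact absurd (hp _) (not_le.2 ((Finset.sup'_lt_iff _).2 h))

/-- The disk-polygon. -/
def D (C : Finset ℂ) : Set ℂ := {p | ∀ c ∈ C, dist p c ≤ 1}

theorem D_closed : IsClosed (D C) := by
  simp only [D, Set.ofPred_forall]
  exact isClosed_iInter fun c => isClosed_iInter fun _ => isClosed_le (by fun_prop) continuous_const

theorem kkt (hC : C.Nonempty) (ht : t < √3) (hd : ∀ x ∈ C, ∀ y ∈ C, dist x y ≤ t) (θ : ℝ) :
    ∃ v ∈ D C, v - u θ ∈ C ∨
      ∃ a b, a < θ ∧ θ < b ∧ b - a < π ∧ v - u a ∈ C ∧ v - u b ∈ C := by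
  have cpt : IsCompact (D C) := (isCompact_closedBall hC.choose 1).of_isClosed_subset D_closed
    fun p hp => hp _ hC.choose_spec
  obtain ⟨v, hv, hm⟩ := cpt.exists_isMaxOn (jung hC ht hd) (f := fun p => ip p (u θ))
    (by unfold ip; fun_prop)
  refine ⟨v, hv, ?_⟩
  by_contra k
  push Not at k
  obtain ⟨k1, k2⟩ := k
  have fin : {φ : ℝ | -π < φ ∧ φ ≤ π ∧ v - u (θ + φ) ∈ C}.Finite := by
    refine Finite.of_finite_image (f := fun φ => v - u (θ + φ))
      (C.finite_toSet.subset (by rintro _ ⟨φ, hφ, rfl⟩; exact hφ.2.2)) fun x hx y hy e => ?_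
    have e2 : u (θ + x) = u (θ + y) := sub_right_injective e
    have e3 : cos (x - y) = 1 := by
      have := ip_u (θ + x) (θ + y)
      rw [e2, ip_u, sub_self, cos_zero, add_sub_add_left_eq_sub] at this
      exact this.symm
    exact sub_eq_zero.1 ((cos_eq_one_iff_of_lt_of_lt (by linarith [hx.1, hy.2.1])
      (by linarith [hy.1, hx.2.1])).1 e3)
  set S := {φ : ℝ | -π < φ ∧ φ ≤ π ∧ v - u (θ + φ) ∈ C} with hS
  obtain ⟨b, hb, hbm⟩ := exists_min_image (insert π (S ∩ Ioi 0)) id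
    ((fin.inter_of_left _).insert _) (insert_nonempty _ _)
  obtain ⟨a, ha, ham⟩ := exists_max_image (insert (-π) (S ∩ Iio 0)) id
    ((fin.inter_of_left _).insert _) (insert_nonempty _ _)
  have pi0 := pi_pos
  have b0 : 0 < b := by rcases hb with rfl | hb; exacts [pi0, hb.2]
  have a0 : a < 0 := by rcases ha with rfl | ha; exacts [by linarith, ha.2]
  have b1 : b ≤ π := hbm π (mem_insert _ _)
  have a1 : -π ≤ a := ham _ (mem_insert _ _)
  have ab : π < b - a := by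
    rcases hb with rfl | hb
    · linarith
    rcases ha with rfl | ha
    · linarith
    by_contra k3
    rcases (not_lt.1 k3).eq_or_lt with e | e
    · have := hd _ hb.1.2.2 _ ha.1.2.2
      rw [show θ + b = θ + a + π by linarith, u_pi, dist_eq_norm,
        show v - -u (θ + a) - (v - u (θ + a)) = (2 : ℝ) • u (θ + a) by
          simp [two_mul], norm_smul, u_norm] at this
      have : √3 < 2 := (Real.sqrt_lt' two_pos).2 (by norm_num)
      norm_num at *; linarith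
    · exact k2 (θ + a) (θ + b) (by linarith) (by linarith) (by linarith) ha.1.2.2 hb.1.2.2
  obtain ⟨ε, hε, h⟩ := descent C (d := u (θ + (a + b) / 2)) zero_le_one hv fun c hc e => by
    obtain ⟨φ, h1, h2, h3⟩ := ang θ (z := v - c) (by rw [← dist_eq_norm, e])
    have hφ : φ ∈ S := ⟨h1, h2, by rw [← h3]; simpa using hc⟩
    rw [h3, ip_u]
    rcases lt_trichotomy φ 0 with p | p | p
    · have : φ ≤ a := ham φ (Or.inr ⟨hφ, p⟩)
      exact cos_neg_of_pi_div_two_lt_of_lt (by linarith) (by linarith)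
    · exact absurd (by simpa [p] using hφ.2.2) k1
    · have : b ≤ φ := hbm φ (Or.inr ⟨hφ, p⟩)
      rw [← cos_neg]
      exact cos_neg_of_pi_div_two_lt_of_lt (by linarith) (by linarith)
  have h1 : ip (v + ε • u (θ + (a + b) / 2)) (u θ) ≤ ip v (u θ) := hm fun c hc => (h c hc).le
  have h2 : 0 < cos ((a + b) / 2) := cos_pos_of_mem_Ioo ⟨by linarith, by linarith⟩
  have h3 := ip_u (θ + (a + b) / 2) θ
  rw [add_sub_cancel_left] at h3
  have h4 : ip (v + ε • u (θ + (a + b) / 2)) (u θ) = ip v (u θ) + ε * cos ((a + b) / 2) := by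
    rw [← h3]; simp [ip]; ring
  nlinarith [mul_pos hε h2]

end Pool.Agent.H.MP_fac573_co
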