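import Pool.Agent.H.MP_fac573_co.A

namespace Pool.Agent.H.MP_fac573_co

open Set Metric Real Filter Topology MeasureTheory

variable {C : Finset ℂ} {t : ℝ}

/-- `v` is the support point of the disk-polygon in direction `θ`. -/
def Sp (C : Finset ℂ) (θ : ℝ) (v : ℂ) : Prop := v ∈ D C ∧ ∀ q ∈ D C, dist q (v - u θ) ≤ 1

theorem Sp.lip {a b : ℝ} {v w : ℂ} (h1 : Sp C a v) (h2 : Sp C b w) :
    dist v w ≤ dist (u a) (u b) := by
  have k1 := (dist_iff zero_le_one w v a).1 (by simpa using h1.2 w h2.1)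
  have k2 := (dist_iff zero_le_one v w b).1 (by simpa using h2.2 v h1.1)
  have k3 := ip_le (v - w) (u a - u b)
  have e : ip (v - w) (u a - u b) = -ip (w - v) (u a) - ip (v - w) (u b) := by simp [ip]; ring
  rw [norm_sub_rev w] at k1
  rw [dist_eq_norm, dist_eq_norm]
  by_contra k
  nlinarith [norm_nonneg (u a - u b)]

theorem Sp.eq {a : ℝ} {v w : ℂ} (h1 : Sp C a v) (h2 : Sp C a w) : v = w :=
  dist_le_zero.1 (by simpa using h1.lip h2)

theorem sp_mid {a b θ : ℝ} {v : ℂ} (hv : v ∈ D C) (h1 : a ≤ θ) (h2 : θ ≤ b) (hab : a < b)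
    (h3 : b - a < π) (ha : v - u a ∈ C) (hb : v - u b ∈ C) : Sp C θ v :=
  ⟨hv, fun q hq => by
    simpa using lens (r := 1) (q := q) (v := v) zero_le_one h1 h2 hab h3
      (by simpa using hq _ ha) (by simpa using hq _ hb)⟩

/-- Directions of the boundary arcs. -/
def A (C : Finset ℂ) : Set ℝ := {θ | ∃ c ∈ C, c + u θ ∈ D C}

theorem A_closed : IsClosed (A C) := by
  have : A C = ⋃ c ∈ C, (fun θ => c + u θ) ⁻¹' D C := by ext; simp [A]
  rw [this]
  exact isClosed_biUnion_finset fun c _ => D_closed.preimage (continuous_const.add u_cont)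

theorem sp_A {c : ℂ} {θ : ℝ} (hc : c ∈ C) (h : c + u θ ∈ D C) : Sp C θ (c + u θ) :=
  ⟨h, fun q hq => by simpa using hq c hc⟩

/-- The structure of the support map. -/
structure St (C : Finset ℂ) (x : ℝ → ℂ) : Prop where
  sp : ∀ θ, Sp C θ (x θ)
  gap : ∀ θ, θ ∉ A C → ∃ a b, a < θ ∧ θ < b ∧ b - a < π ∧ x θ - u a ∈ C ∧ x θ - u b ∈ C

theorem st (hC : C.Nonempty) (ht : t < √3) (hd : ∀ x ∈ C, ∀ y ∈ C, dist x y ≤ t) :
    ∃ x, St C x := by
  choose x h1 h2 using kkt hC ht hd
  refine ⟨x, fun θ => ?_, fun θ h => (h2 θ).resolve_left fun k => h ⟨_, k, by simpa using h1 θ⟩⟩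
  rcases h2 θ with k | ⟨a, b, k1, k2, k3, k4, k5⟩
  · exact ⟨h1 θ, fun q hq => hq _ k⟩
  · exact sp_mid (h1 θ) k1.le k2.le (k1.trans k2) k3 k4 k5

variable {x : ℝ → ℂ}

theorem St.cont (H : St C x) : Continuous x := by
  refine continuous_iff_continuousAt.2 fun a => tendsto_iff_dist_tendsto_zero.2 ?_
  exact squeeze_zero (fun _ => dist_nonneg) (fun b => (H.sp b).lip (H.sp a))
    (tendsto_iff_dist_tendsto_zero.1 (u_cont.tendsto a))

theorem St.per (H : St C x) (θ : ℝ) : x (θ + 2 * π) = x θ := by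
  have := H.sp (θ + 2 * π)
  simp only [Sp, u_per] at this
  exact Sp.eq this (H.sp θ)

theorem St.memA (H : St C x) {θ : ℝ} (h : θ ∈ A C) : x θ - u θ ∈ C := by
  obtain ⟨c, hc, k⟩ := h
  rw [(H.sp θ).eq (sp_A hc k)]
  simpa using hc

/-- The exceptional directions. -/
def Ex (C : Finset ℂ) : Set ℝ := {θ | ∃ c ∈ C, ∃ c' ∈ C, c ≠ c' ∧ dist (c + u θ) c' = 1}

theorem Ex_count : (Ex C).Countable := by
  have : Ex C ⊆ ⋃ c ∈ C, ⋃ c' ∈ C, ⋃ _ : c ≠ c',
      circleMap c 1 ⁻¹' {z | dist z c = 1 ∧ dist z c' = 1} := by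
    rintro θ ⟨c, hc, c', hc', h1, h2⟩
    have : circleMap c 1 θ = c + u θ := by simp [u_eq, circleMap]
    simp only [mem_iUnion, mem_preimage, mem_ofPred_eq]
    exact ⟨c, hc, c', hc', h1, by simp [this, u_norm], this ▸ h2⟩
  refine Countable.mono this (C.countable_toSet.biUnion fun c _ => C.countable_toSet.biUnion
    fun c' _ => countable_iUnion fun h => Countable.preimage_circleMap ?_ c one_ne_zero)
  by_cases k : {z | dist z c = 1 ∧ dist z c' = 1}.Subsingleton
  · exact k.countable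
  obtain ⟨p, hp, q, hq, hpq⟩ := not_subsingleton_iff.1 k
  exact (toFinite {p, q}).countable.mono fun z hz =>
    EuclideanGeometry.eq_of_dist_eq_of_dist_eq_of_finrank_eq_two Complex.finrank_real_complex h hpq
      hp.1 hq.1 hz.1 hp.2 hq.2 hz.2

theorem hasDeriv_ip (v : ℂ) (θ : ℝ) :
    HasDerivAt (fun θ => ip v (u (θ + π / 2))) (-ip v (u θ)) θ := by
  simp only [ip, u_re, u_im, cos_add_pi_div_two, sin_add_pi_div_two]
  exact (((hasDerivAt_sin θ).neg.const_mul v.re).add
    ((hasDerivAt_cos θ).const_mul v.im)).congr_deriv (by ring)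

theorem St.ftc (H : St C x) (s : ℝ) :
    ∫ θ in s..s + 2 * π, ((A C)ᶜ.indicator (1 : ℝ → ℝ) θ - (1 - ip (x θ) (u θ))) = 0 := by
  have c := H.cont
  have cu := u_cont
  have cu2 : Continuous fun θ => u (θ + π / 2) := cu.comp (by fun_prop)
  have := integral_eq_of_hasDerivAt_off_countable_of_le (fun θ => -ip (x θ) (u (θ + π / 2)))
    (fun θ => (A C)ᶜ.indicator (1 : ℝ → ℝ) θ - (1 - ip (x θ) (u θ))) (a := s) (b := s + 2 * π)
    (by linarith [pi_pos]) (Ex_count (C := C)) (Continuous.continuousOn (by unfold ip; fun_prop))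
    (fun θ hθ => ?_) (IntervalIntegrable.sub
      ⟨(integrable_const 1).indicator A_closed.measurableSet.compl,
        (integrable_const 1).indicator A_closed.measurableSet.compl⟩
      (Continuous.intervalIntegrable (by unfold ip; fun_prop) _ _))
  · rw [this, H.per, add_right_comm, u_per, sub_self]
  by_cases h : θ ∈ A C
  · obtain ⟨c, hc, k⟩ := id h
    have ev : ∀ᶠ φ in 𝓝 θ, c + u φ ∈ D C := by
      refine (eventually_all_finset C).2 fun c' hc' => ?_
      by_cases e : c = c'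
      · exact .of_forall fun φ => by simp [← e, u_norm]
      · exact (ContinuousAt.eventually_lt (f := fun φ => dist (c + u φ) c') (g := fun _ => 1)
          (by fun_prop) continuousAt_const
          ((k c' hc').lt_of_ne fun q => hθ.2 ⟨c, hc, c', hc', e, q⟩)).mono fun _ => le_of_lt
    refine ((hasDeriv_ip c θ).neg.congr_of_eventuallyEq (ev.mono fun φ hφ => ?_)).congr_deriv ?_
    · simp only [(H.sp φ).eq (sp_A hc hφ)]
      simp [ip, cos_add_pi_div_two, sin_add_pi_div_two]; ring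
    · rw [(H.sp θ).eq (sp_A hc k), indicator_of_notMem (by simpa using h)]
      simp only [ip, Complex.add_re, Complex.add_im, u_re, u_im]
      linear_combination -(sin_sq_add_cos_sq θ)
  · obtain ⟨a, b, k1, k2, k3, k4, k5⟩ := H.gap θ h
    refine ((hasDeriv_ip (x θ) θ).neg.congr_of_eventuallyEq
      (eventually_of_mem (Ioo_mem_nhds k1 k2) fun φ hφ => ?_)).congr_deriv ?_
    · simp only [(H.sp φ).eq (sp_mid (H.sp θ).1 hφ.1.le hφ.2.le (k1.trans k2) k3 k4 k5)]
      rfl
    · rw [indicator_of_mem (by simpa using h)]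
      simp

end Pool.Agent.H.MP_fac573_co
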