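import Pool.Agent.H.MP_fac573_co.B

namespace Pool.Agent.H.MP_fac573_co

open Set Metric Real Filter Topology MeasureTheory

variable {C : Finset ℂ} {t : ℝ}

theorem cvx (h1 : 1 ≤ t) (h2 : t < 2) {φ : ℝ} (p0 : 0 ≤ φ) (p1 : φ ≤ π / 6) :
    arcsin (t * sin φ) ≤ 6 * arcsin (t / 2) / π * φ := by
  have pi0 := pi_pos
  have sb : ∀ y ∈ Icc 0 (π / 6), 0 ≤ sin y ∧ sin y ≤ 1 / 2 := fun y hy =>
    ⟨sin_nonneg_of_nonneg_of_le_pi hy.1 (by linarith [hy.2]), by
      rw [← sin_pi_div_six]
      exact sin_le_sin_of_le_of_le_pi_div_two (by linarith [hy.1]) (by linarith) hy.2⟩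
  have hd : ∀ y ∈ Icc 0 (π / 6), HasDerivAt (fun y => arcsin (t * sin y))
      (1 / √(1 - (t * sin y) ^ 2) * (t * cos y)) y := fun y hy => by
    have := sb y hy
    exact (hasDerivAt_arcsin (by nlinarith) (by nlinarith)).comp y
      ((hasDerivAt_sin y).const_mul t)
  have c : ConvexOn ℝ (Icc 0 (π / 6)) fun y => arcsin (t * sin y) := by
    refine MonotoneOn.convexOn_of_deriv (convex_Icc _ _)
      (fun y hy => (hd y hy).continuousAt.continuousWithinAt)
      (fun y hy => (hd y (interior_subset hy)).differentiableAt.differentiableWithinAt)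
      fun y hy z hz hyz => ?_
    have hy' := interior_subset hy
    have hz' := interior_subset hz
    rw [(hd y hy').deriv, (hd z hz').deriv]
    have a := sb y hy'
    have b := sb z hz'
    have ab : sin y ≤ sin z :=
      sin_le_sin_of_le_of_le_pi_div_two (by linarith [hy'.1]) (by linarith [hz'.2]) hyz
    have t4 : ∀ s : ℝ, 0 ≤ s → s ≤ 1 / 2 → 0 < 1 - (t * s) ^ 2 := fun s s0 s1 => by
      have : t * s < 1 := by nlinarith
      have : 0 ≤ t * s := by positivity
      nlinarith
    have a2 := t4 _ a.1 a.2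
    have b2 := t4 _ b.1 b.2
    have cz : 0 ≤ cos z := cos_nonneg_of_mem_Icc ⟨by linarith [hz'.1], by linarith [hz'.2]⟩
    refine (abs_le_of_sq_le_sq' ?_ (by positivity)).2
    rw [mul_pow, mul_pow (1 / _), div_pow, div_pow, sq_sqrt a2.le, sq_sqrt b2.le, one_pow,
      one_div_mul_eq_div, one_div_mul_eq_div, div_le_div_iff₀ a2 b2]
    simp only [mul_pow, cos_sq']
    have s2 : sin y ^ 2 ≤ sin z ^ 2 := by gcongr; exact a.1
    nlinarith [mul_nonneg (mul_nonneg (sq_nonneg t) (show 0 ≤ t ^ 2 - 1 by nlinarith))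
      (sub_nonneg.2 s2)]
  have := c.2 (left_mem_Icc.2 (by positivity)) (right_mem_Icc.2 (by positivity))
    (show 0 ≤ 1 - 6 * φ / π by rw [sub_nonneg, div_le_one pi0]; linarith)
    (show 0 ≤ 6 * φ / π by positivity) (by ring)
  simp only [smul_eq_mul, mul_zero, zero_add, sin_zero, arcsin_zero, sin_pi_div_six] at this
  rw [show 6 * φ / π * (π / 6) = φ by field_simp, mul_one_div] at this
  exact this.trans_eq (by ring)

/-- The hull of `C` with respect to disks of radius `t`. -/
def Kt (C : Finset ℂ) (t : ℝ) : Set ℂ := {p | ∀ q, (∀ c ∈ C, dist q c ≤ t) → dist q p ≤ t}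

/-- Its support function in the direction `-u θ`. -/
noncomputable def g (C : Finset ℂ) (t θ : ℝ) : ℝ := sSup ((fun p => -ip p (u θ)) '' Kt C t)

theorem sub_Kt {c : ℂ} (hc : c ∈ C) : c ∈ Kt C t := fun _ hq => hq c hc

theorem Kt_compact (hC : C.Nonempty) (hd : ∀ x ∈ C, ∀ y ∈ C, dist x y ≤ t) :
    IsCompact (Kt C t) := by
  refine (isCompact_closedBall hC.choose t).of_isClosed_subset ?_ fun p hp => ?_
  · simp only [Kt, Set.ofPred_forall]
    exact isClosed_iInter fun c => isClosed_iInter fun _ =>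
      isClosed_le (by fun_prop) continuous_const
  · exact mem_closedBall'.2 (hp _ (hd _ hC.choose_spec))

theorem g_cont (hC : C.Nonempty) (hd : ∀ x ∈ C, ∀ y ∈ C, dist x y ≤ t) : Continuous (g C t) := by
  have := u_cont
  exact (Kt_compact hC hd).continuous_sSup (f := fun θ p => -ip p (u θ))
    (by unfold ip Function.HasUncurry.uncurry Function.hasUncurryInduction
          Function.HasUncurry.uncurry Function.hasUncurryBase; simp only [id]; fun_prop)

theorem le_g (hC : C.Nonempty) (hd : ∀ x ∈ C, ∀ y ∈ C, dist x y ≤ t) {p : ℂ} (hp : p ∈ Kt C t)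
    (θ : ℝ) : -ip p (u θ) ≤ g C t θ :=
  le_csSup ((Kt_compact hC hd).bddAbove_image (Continuous.continuousOn (by unfold ip; fun_prop)))
    (mem_image_of_mem (fun p => -ip p (u θ)) hp)

theorem g_width (hC : C.Nonempty) (hd : ∀ x ∈ C, ∀ y ∈ C, dist x y ≤ t) (θ : ℝ) :
    g C t θ + g C t (θ + π) ≤ t := by
  have e : ∀ θ, ∃ p ∈ Kt C t, g C t θ = -ip p (u θ) := fun θ =>
    (Kt_compact hC hd).exists_sSup_image_eq ⟨_, sub_Kt hC.choose_spec⟩
      (Continuous.continuousOn (by unfold ip; fun_prop))
  obtain ⟨p, hp, e1⟩ := e θ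
  obtain ⟨q, hq, e2⟩ := e (θ + π)
  have a : dist q p ≤ t := hp q fun c hc => dist_comm c q ▸ hq c (hd c hc)
  have b := ip_le (q - p) (u θ)
  rw [u_norm, mul_one, ← dist_eq_norm] at b
  rw [e1, e2, u_pi]
  simp only [ip, Complex.sub_re, Complex.sub_im, Complex.neg_re, Complex.neg_im] at *
  linarith

theorem g_int (hC : C.Nonempty) (hd : ∀ x ∈ C, ∀ y ∈ C, dist x y ≤ t) (s : ℝ) :
    ∫ θ in s..s + 2 * π, g C t θ ≤ π * t := by
  have c := g_cont hC hd
  have c2 : Continuous fun θ => g C t (θ + π) := by fun_prop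
  rw [← intervalIntegral.integral_add_adjacent_intervals (b := s + π) (c.intervalIntegrable _ _)
    (c.intervalIntegrable _ _), show s + 2 * π = s + π + π by ring,
    ← intervalIntegral.integral_comp_add_right (g C t) π,
    ← intervalIntegral.integral_add (c.intervalIntegrable _ _) (c2.intervalIntegrable _ _)]
  refine (intervalIntegral.integral_mono_on (by linarith [pi_pos])
    ((c.add c2).intervalIntegrable _ _) (by simp) fun θ _ => g_width hC hd θ).trans_eq ?_
  simp

theorem piece (p q m ψ κ r : ℝ) : ∫ θ in p..q, (1 - κ * cos (θ - m) - r * cos (θ - ψ)) =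
    q - p - κ * (sin (q - m) - sin (p - m)) - r * (sin (q - ψ) - sin (p - ψ)) := by
  rw [intervalIntegral.integral_sub, intervalIntegral.integral_sub,
    intervalIntegral.integral_const_mul, intervalIntegral.integral_const_mul,
    intervalIntegral.integral_comp_sub_right cos, intervalIntegral.integral_comp_sub_right cos]
  · simp
  all_goals exact Continuous.intervalIntegrable (by fun_prop) _ _

theorem gap_int (hC : C.Nonempty) (h1 : 1 ≤ t) (h2 : t < 2)
    (hd : ∀ x ∈ C, ∀ y ∈ C, dist x y ≤ t) {v : ℂ} {m γ : ℝ} (g0 : 0 < γ) (g1 : γ < π / 2)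
    (ha : v - u (m - γ) ∈ C) (hb : v - u (m + γ) ∈ C) :
    ∫ θ in m - γ..m + γ, (1 - ip v (u θ) - g C t θ) ≤
      (1 - t * π / (6 * arcsin (t / 2))) * (2 * γ) := by
  have pi0 := pi_pos
  have t0 : 0 < t := by linarith
  have s0 : 0 < sin γ := sin_pos_of_pos_of_lt_pi g0 (by linarith)
  have s1 : 2 * sin γ ≤ t := by
    have := hd _ ha _ hb
    rw [← sq_le_sq₀ dist_nonneg t0.le, dist_eq_norm, nsq] at this
    refine (abs_le_of_sq_le_sq' (le_of_eq_of_le ?_ this) t0.le).2
    simp only [Complex.sub_re, Complex.sub_im, u_re, u_im, cos_add, cos_sub, sin_add, sin_sub]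
    linear_combination (-4 * sin γ ^ 2) * sin_sq_add_cos_sq m
  have s2 : sin γ / t ≤ 1 / 2 := by rw [div_le_iff₀ t0]; linarith
  set δ := arcsin (sin γ / t) with hδ
  have d0 : 0 < δ := arcsin_pos.2 (by positivity)
  have e : t * sin δ = sin γ := by
    rw [hδ, sin_arcsin (by linarith [div_pos s0 t0]) (by linarith)]; field_simp
  have d1 : δ ≤ π / 6 := by
    rw [← arcsin_sin (x := π / 6) (by linarith) (by linarith), sin_pi_div_six]
    exact arcsin_le_arcsin s2
  have d2 : δ ≤ γ := by
    rw [← arcsin_sin (x := γ) (by linarith) g1.le]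
    exact arcsin_le_arcsin (div_le_self s0.le h1)
  have d3 := cvx h1 h2 d0.le d1
  rw [e, arcsin_sin (by linarith) g1.le] at d3
  set κ := cos γ - t * cos δ with hκ
  have ea : v - κ • u m - t • u (m - δ) = v - u (m - γ) := by
    simp only [Complex.ext_iff, Complex.sub_re, Complex.sub_im, Complex.smul_re, Complex.smul_im,
      u_re, u_im, cos_sub, sin_sub, smul_eq_mul, hκ]
    exact ⟨by linear_combination (-sin m) * e, by linear_combination (cos m) * e⟩
  have eb : v - κ • u m - t • u (m + δ) = v - u (m + γ) := by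
    simp only [Complex.ext_iff, Complex.sub_re, Complex.sub_im, Complex.smul_re, Complex.smul_im,
      u_re, u_im, cos_add, sin_add, smul_eq_mul, hκ]
    exact ⟨by linear_combination (sin m) * e, by linear_combination (-cos m) * e⟩
  have key : ∀ ψ, m - δ ≤ ψ → ψ ≤ m + δ → ∀ θ, 1 - ip v (u θ) - g C t θ ≤
      1 - κ * cos (θ - m) - t * cos (θ - ψ) := fun ψ p1 p2 θ => by
    have := le_g hC hd (p := v - κ • u m - t • u ψ) (fun q hq => lens t0.le p1 p2 (by linarith)
      (by linarith) (by rw [ea]; exact hq _ ha) (by rw [eb]; exact hq _ hb)) θ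
    simp only [ip, Complex.sub_re, Complex.sub_im, Complex.smul_re, Complex.smul_im,
      u_re, u_im, cos_sub, smul_eq_mul] at *
    linarith
  have cu := u_cont
  have cg := g_cont hC hd
  have c : Continuous fun θ => 1 - ip v (u θ) - g C t θ := by unfold ip; fun_prop
  have i1 := intervalIntegral.integral_mono_on (μ := volume) (a := m - γ) (b := m - δ)
    (by linarith) (c.intervalIntegrable _ _) (Continuous.intervalIntegrable (by fun_prop) _ _)
    fun θ _ => key (m - δ) le_rfl (by linarith) θ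
  have i3 := intervalIntegral.integral_mono_on (μ := volume) (a := m + δ) (b := m + γ)
    (by linarith) (c.intervalIntegrable _ _) (Continuous.intervalIntegrable (by fun_prop) _ _)
    fun θ _ => key (m + δ) (by linarith) le_rfl θ
  have i2 := intervalIntegral.integral_mono_on (μ := volume) (a := m - δ) (b := m + δ)
    (g := fun θ => 1 - κ * cos (θ - m) - 0 * cos (θ - m) - t)
    (by linarith) (c.intervalIntegrable _ _) (Continuous.intervalIntegrable (by fun_prop) _ _)
    fun θ hθ => by simpa using key θ hθ.1 hθ.2 θ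
  rw [intervalIntegral.integral_sub (f := fun θ => 1 - κ * cos (θ - m) - 0 * cos (θ - m))
    (Continuous.intervalIntegrable (by fun_prop) _ _) (by simp)] at i2
  rw [piece] at i1 i2 i3
  rw [← intervalIntegral.integral_add_adjacent_intervals (b := m - δ) (c.intervalIntegrable _ _)
    (c.intervalIntegrable _ _), ← intervalIntegral.integral_add_adjacent_intervals (a := m - δ)
    (b := m + δ) (c.intervalIntegrable _ _) (c.intervalIntegrable _ _)]
  simp only [sub_self, sin_zero, sub_sub_cancel_left, add_sub_cancel_left, sin_neg,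
    sub_sub_sub_cancel_left, add_sub_add_left_eq_sub, sin_sub, intervalIntegral.integral_const,
    smul_eq_mul] at i1 i2 i3
  have a0 : 0 < arcsin (t / 2) := arcsin_pos.2 (by positivity)
  have f : t * π / (6 * arcsin (t / 2)) * γ ≤ t * δ := by
    rw [div_mul_eq_mul_div, div_le_iff₀ (by positivity)]
    rw [div_mul_eq_mul_div, le_div_iff₀ pi0] at d3
    nlinarith
  have f2 : κ * sin γ + t * (sin γ * cos δ - cos γ * sin δ) = 0 := by
    rw [hκ]; linear_combination (-cos γ) * e
  linarith

end Pool.Agent.H.MP_fac573_co
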