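import Pool.Agent.H.MP_fac573_co.C

namespace Pool.Agent.H.MP_fac573_co

open Set Metric Real Filter Topology MeasureTheory

variable {C : Finset ℂ} {t : ℝ} {x : ℝ → ℂ}

theorem gaps {S : Set ℝ} (hS : IsClosed S) {f : ℝ → ℝ} {s e : ℝ} (hs : s ∈ S) (he : e ∈ S)
    (hf : IntegrableOn f (Ioo s e)) (h1 : ∀ θ ∈ S, f θ ≤ 0)
    (h2 : ∀ a ∈ S, ∀ b ∈ S, a < b → Ioo a b ⊆ Sᶜ → ∫ θ in Ioo a b, f θ ≤ 0) :
    ∫ θ in Ioo s e, f θ ≤ 0 := by
  let I : Set (Set ℝ) :=
    {J | ∃ a ∈ S, ∃ b ∈ S, s ≤ a ∧ a < b ∧ b ≤ e ∧ Ioo a b ⊆ Sᶜ ∧ J = Ioo a b}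
  have dj : I.PairwiseDisjoint id := by
    rintro _ ⟨a, ha, b, hb, -, -, -, k, rfl⟩ _ ⟨a', ha', b', hb', -, -, -, k', rfl⟩ hne
    refine disjoint_left.2 fun θ (p : θ ∈ Ioo a b) (q : θ ∈ Ioo a' b') => hne ?_
    have e1 : a = a' := le_antisymm (not_lt.1 fun h => k' ⟨h, p.1.trans q.2⟩ ha)
      (not_lt.1 fun h => k ⟨h, q.1.trans p.2⟩ ha')
    have e2 : b = b' := le_antisymm (not_lt.1 fun h => k ⟨p.1.trans q.2, h⟩ hb')
      (not_lt.1 fun h => k' ⟨q.1.trans p.2, h⟩ hb)
    rw [e1, e2]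
  have cn : I.Countable := dj.countable_of_isOpen
    (by rintro _ ⟨a, -, b, -, -, -, -, -, rfl⟩; exact isOpen_Ioo)
    (by rintro _ ⟨a, -, b, -, -, h, -, -, rfl⟩; exact nonempty_Ioo.2 h)
  have un : Ioo s e \ S = ⋃ J : I, J := by
    ext θ
    simp only [mem_iUnion, Subtype.exists, exists_prop]
    constructor
    · rintro ⟨p, q⟩
      have ca := (isCompact_Icc (a := s) (b := θ)).inter_left hS
      have cb := (isCompact_Icc (a := θ) (b := e)).inter_left hS
      obtain ⟨a, ha⟩ := ca.exists_isGreatest ⟨s, hs, le_rfl, p.1.le⟩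
      obtain ⟨b, hb⟩ := cb.exists_isLeast ⟨e, he, p.2.le, le_rfl⟩
      have a1 : a < θ := ha.1.2.2.lt_of_ne fun h => q (h ▸ ha.1.1)
      have b1 : θ < b := hb.1.2.1.lt_of_ne fun h => q (h ▸ hb.1.1)
      refine ⟨_, ⟨a, ha.1.1, b, hb.1.1, ha.1.2.1, a1.trans b1, hb.1.2.2, fun φ hφ k => ?_, rfl⟩,
        a1, b1⟩
      rcases le_total φ θ with h | h
      · exact not_le.2 hφ.1 (ha.2 ⟨k, ha.1.2.1.trans hφ.1.le, h⟩)
      · exact not_le.2 hφ.2 (hb.2 ⟨k, h, hφ.2.le.trans hb.1.2.2⟩)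
    · rintro ⟨_, ⟨a, -, b, -, k1, -, k2, k, rfl⟩, p⟩
      exact ⟨⟨k1.trans_lt p.1, p.2.trans_le k2⟩, k p⟩
  rw [← integral_inter_add_sdiff hS.measurableSet hf]
  refine add_nonpos (setIntegral_nonpos (measurableSet_Ioo.inter hS.measurableSet)
    fun θ h => h1 θ h.2) ?_
  have := cn.to_subtype
  have hi := hf.mono_set (sdiff_subset (t := S))
  rw [un] at hi ⊢
  rw [integral_iUnion (s := fun J : I => (J : Set ℝ))
    (fun J => by obtain ⟨_, a, -, b, -, -, -, -, -, rfl⟩ := J; measurability)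
    (dj.subtype _ _) hi]
  refine tsum_nonpos ?_
  rintro ⟨_, a, ha, b, hb, -, k1, -, k, rfl⟩
  exact h2 a ha b hb k1 k

theorem St.gapm (H : St C x) (hC : C.Nonempty) (h1 : 1 ≤ t) (h2 : t < 2)
    (hd : ∀ x ∈ C, ∀ y ∈ C, dist x y ≤ t) :
    ∃ s, volume.real (Ioo s (s + 2 * π) \ A C) ≤ 6 * arcsin (t / 2) := by
  have pi0 := pi_pos
  obtain ⟨s, hs⟩ : ∃ s, s ∈ A C := by
    by_cases h : (0 : ℝ) ∈ A C
    · exact ⟨0, h⟩
    · obtain ⟨a, b, -, -, -, k, -⟩ := H.gap 0 h
      exact ⟨a, _, k, by simpa using (H.sp 0).1⟩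
  have he : s + 2 * π ∈ A C := by simpa only [A, mem_ofPred_eq, u_per] using hs
  refine ⟨s, ?_⟩
  set μ := 1 - t * π / (6 * arcsin (t / 2)) with hμ
  have cu := u_cont
  have cx := H.cont
  have cg := g_cont hC hd
  have c1 : Continuous fun θ => 1 - ip (x θ) (u θ) := by unfold ip; fun_prop
  have mA : MeasurableSet (A C)ᶜ := A_closed.measurableSet.compl
  have ii : ∀ a b, IntervalIntegrable ((A C)ᶜ.indicator (1 : ℝ → ℝ)) volume a b := fun a b =>
    ⟨(integrable_const 1).indicator mA, (integrable_const 1).indicator mA⟩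
  have io : ∀ {a b : ℝ} (f : ℝ → ℝ), a ≤ b → ∫ θ in Ioo a b, f θ = ∫ θ in a..b, f θ :=
    fun f h => by rw [intervalIntegral.integral_of_le h, integral_Ioc_eq_integral_Ioo]
  have sp : ∀ a b, ∫ θ in a..b, (1 - ip (x θ) (u θ) - g C t θ - μ * (A C)ᶜ.indicator 1 θ) =
      (∫ θ in a..b, (1 - ip (x θ) (u θ) - g C t θ)) -
        μ * ∫ θ in a..b, (A C)ᶜ.indicator 1 θ := fun a b => by
    rw [intervalIntegral.integral_sub (by exact (c1.sub cg).intervalIntegrable _ _)
      ((ii _ _).const_mul μ), intervalIntegral.integral_const_mul]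
  have G := gaps A_closed hs he
    (f := fun θ => 1 - ip (x θ) (u θ) - g C t θ - μ * (A C)ᶜ.indicator 1 θ)
    ((((c1.sub cg).intervalIntegrable _ _).sub ((ii _ _).const_mul μ)).1.mono_set
      Ioo_subset_Ioc_self) (fun θ h => by
      have := le_g hC hd (sub_Kt (H.memA h)) θ
      rw [indicator_of_notMem (by simpa using h)]
      simp only [ip, Complex.sub_re, Complex.sub_im, u_re, u_im] at *
      nlinarith [sin_sq_add_cos_sq θ]) fun a ha b hb hab k => by
      have hm : (a + b) / 2 ∈ Ioo a b := ⟨by linarith, by linarith⟩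
      obtain ⟨a', b', k1, k2, k3, k4, k5⟩ := H.gap _ (k hm)
      have dv := (H.sp ((a + b) / 2)).1
      have p1 : a' ≤ a := not_lt.1 fun h => k ⟨h, k1.trans hm.2⟩ ⟨_, k4, by simpa using dv⟩
      have p2 : b ≤ b' := not_lt.1 fun h => k ⟨hm.1.trans k2, h⟩ ⟨_, k5, by simpa using dv⟩
      have cst : ∀ θ ∈ Icc a b, x θ = x ((a + b) / 2) := fun θ h =>
        (H.sp θ).eq (sp_mid dv (p1.trans h.1) (h.2.trans p2) (k1.trans k2) k3 k4 k5)
      have ea : (a + b) / 2 - (b - a) / 2 = a := by ring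
      have eb : (a + b) / 2 + (b - a) / 2 = b := by ring
      have := gap_int hC h1 h2 hd (v := x ((a + b) / 2)) (m := (a + b) / 2) (γ := (b - a) / 2)
        (by linarith) (by linarith)
        (by rw [ea, ← cst a (left_mem_Icc.2 hab.le)]; exact H.memA ha)
        (by rw [eb, ← cst b (right_mem_Icc.2 hab.le)]; exact H.memA hb)
      rw [ea, eb, ← hμ] at this
      rw [io _ hab.le, sp, ← io ((A C)ᶜ.indicator 1) hab.le, setIntegral_congr_fun
        measurableSet_Ioo (g := fun _ => (1 : ℝ)) fun θ h => indicator_of_mem (k h) _,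
        intervalIntegral.integral_congr (g := fun θ => 1 - ip (x ((a + b) / 2)) (u θ) - g C t θ)
          fun θ h => by simp only [cst θ (uIcc_of_le hab.le ▸ h)]]
      simp only [integral_const, MeasurableSet.univ, measureReal_restrict_apply, univ_inter,
        volume_real_Ioo_of_le hab.le, smul_eq_mul]
      linarith
  have F := H.ftc s
  have W := g_int hC hd s
  rw [io _ (by linarith), sp, intervalIntegral.integral_sub (c1.intervalIntegrable _ _)
    (cg.intervalIntegrable _ _)] at G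
  rw [intervalIntegral.integral_sub (ii _ _) (c1.intervalIntegrable _ _)] at F
  have V : ∫ θ in s..s + 2 * π, (A C)ᶜ.indicator (1 : ℝ → ℝ) θ =
      volume.real (Ioo s (s + 2 * π) \ A C) := by
    rw [← io _ (by linarith), setIntegral_indicator mA]
    simp [sdiff_eq]
  rw [V] at G F
  have a0 : 0 < arcsin (t / 2) := arcsin_pos.2 (by positivity)
  have f : t * π / (6 * arcsin (t / 2)) * volume.real (Ioo s (s + 2 * π) \ A C) ≤ π * t := by
    rw [hμ] at G; linarith
  rw [div_mul_eq_mul_div, div_le_iff₀ (by positivity)] at f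
  exact le_of_mul_le_mul_left (a := t * π) (by linarith) (by positivity)

theorem arc_small (c : ℂ) {N : Set ℝ} {a δ : ℝ} (hδ : 0 < δ) (h1 : δ ≤ 1)
    (hN : N ⊆ Ico a (a + δ)) :
    volume N ≤ ENNReal.ofReal (1 + δ) * μH[1] ((fun θ => c + u θ) '' N) := by
  have key : ∀ p ∈ N, ∀ q ∈ N, dist p q ≤ (1 + δ) * dist (c + u p) (c + u q) := by
    have k : ∀ p ∈ N, ∀ q ∈ N, p < q → dist p q ≤ (1 + δ) * dist (c + u p) (c + u q) := by
      intro p hp q hq h
      have a1 : q - p ≤ δ := by linarith [(hN hp).1, (hN hq).2]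
      have a2 := sin_gt_sub_cube (sub_pos.2 h)
      have a3 := ip_le (u q - u p) (u (p + π / 2))
      have a4 : ip (u q - u p) (u (p + π / 2)) = sin (q - p) := by
        simp [ip, cos_add_pi_div_two, sin_add_pi_div_two, sin_sub]; ring
      rw [u_norm, mul_one, a4] at a3
      rw [dist_add_left, dist_comm (u p), dist_eq_norm (u q), dist_comm, Real.dist_eq,
        abs_of_pos (sub_pos.2 h)]
      set y := q - p
      have y0 : 0 < y := sub_pos.2 h
      have : y ^ 3 / 6 ≤ y * (δ / 2) := by nlinarith [mul_pos y0 y0]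
      nlinarith [mul_pos y0 hδ, mul_nonneg (mul_pos y0 hδ).le (sub_nonneg.2 h1)]
    intro p hp q hq
    rcases lt_trichotomy p q with h | h | h
    · exact k p hp q hq h
    · simp [h]
    · rw [dist_comm, dist_comm (c + u p)]; exact k q hq p hp h
  have inj : InjOn (fun θ => c + u θ) N := fun p hp q hq e =>
    dist_le_zero.1 ((key p hp q hq).trans_eq (by simp only at e; rw [e]; simp))
  have L : LipschitzOnWith (1 + δ).toNNReal (Function.invFunOn (fun θ => c + u θ) N)
      ((fun θ => c + u θ) '' N) := by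
    refine LipschitzOnWith.of_dist_le' ?_
    rintro _ ⟨p, hp, rfl⟩ _ ⟨q, hq, rfl⟩
    rw [inj.leftInvOn_invFunOn hp, inj.leftInvOn_invFunOn hq]
    exact key p hp q hq
  have := L.hausdorffMeasure_image_le zero_le_one
  rwa [inj.invFunOn_image subset_rfl, hausdorffMeasure_real, ENNReal.rpow_one] at this

theorem u_inj (s : ℝ) : InjOn u (Ioo s (s + 2 * π)) := fun p hp q hq e => by
  have := ip_u p q
  rw [e, ip_u, sub_self, cos_zero] at this
  exact sub_eq_zero.1 ((cos_eq_one_iff_of_lt_of_lt (by linarith [hp.1, hq.2])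
    (by linarith [hq.1, hp.2])).1 this.symm)

theorem arc (c : ℂ) {N : Set ℝ} {s : ℝ} (mN : MeasurableSet N) (hN : N ⊆ Ioo s (s + 2 * π)) :
    volume N ≤ μH[1] ((fun θ => c + u θ) '' N) := by
  have k : ∀ δ : ℝ, 0 < δ → δ ≤ 1 →
      volume N ≤ ENNReal.ofReal (1 + δ) * μH[1] ((fun θ => c + u θ) '' N) := fun δ h0 h1 => by
    let M : ℤ → Set ℝ := fun n => N ∩ Ico (0 + n • δ) (0 + (n + 1) • δ)
    have e : N = ⋃ n, M n := by rw [← inter_iUnion, iUnion_Ico_add_zsmul h0, inter_univ]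
    have inj : InjOn (fun θ => c + u θ) N := fun p hp q hq e =>
      u_inj s (hN hp) (hN hq) (add_left_cancel e)
    have dj := pairwise_disjoint_Ico_add_zsmul (0 : ℝ) δ
    conv_lhs => rw [e]
    conv_rhs => rw [e, image_iUnion]
    rw [measure_iUnion (μ := μH[1]) (f := fun n => (fun θ => c + u θ) '' M n)
      (fun i j hij => disjoint_image_image fun p hp q hq e =>
        disjoint_left.1 (dj hij) hp.2 (inj hp.1 hq.1 e ▸ hq.2))
      fun n => (mN.inter measurableSet_Ico).image_of_continuousOn_injOn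
        (continuous_const.add u_cont).continuousOn (inj.mono inter_subset_left),
      ← ENNReal.tsum_mul_left]
    refine (measure_iUnion_le _).trans (ENNReal.tsum_le_tsum fun n =>
      arc_small c (a := 0 + n • δ) h0 h1 fun θ h => ?_)
    have := h.2
    rwa [add_smul, one_smul, ← add_assoc] at this
  by_cases f : μH[1] ((fun θ => c + u θ) '' N) = ⊤
  · simp [f]
  have l : Tendsto (fun δ : ℝ => ENNReal.ofReal (1 + δ) * μH[1] ((fun θ => c + u θ) '' N))
      (𝓝[>] 0) (𝓝 (ENNReal.ofReal (1 + 0) * μH[1] ((fun θ => c + u θ) '' N))) :=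
    ENNReal.Tendsto.mul_const (ENNReal.tendsto_ofReal (tendsto_nhdsWithin_of_tendsto_nhds
      ((by fun_prop : Continuous fun δ : ℝ => 1 + δ).tendsto 0))) (Or.inr f)
  simpa using ge_of_tendsto l
    (eventually_of_mem (Ioc_mem_nhdsGT one_pos) fun δ h => k δ h.1 h.2)

theorem front {c : ℂ} {θ : ℝ} (hc : c ∈ C) (h : c + u θ ∈ D C) : c + u θ ∈ frontier (D C) := by
  refine ⟨subset_closure h, fun hi => ?_⟩
  have := interior_mono (show D C ⊆ closedBall c 1 from fun p hp => hp c hc) hi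
  rw [interior_closedBall c one_ne_zero] at this
  simp [u_norm] at this

theorem main (hC : C.Nonempty) (h1 : 1 ≤ t) (ht : t < √3)
    (hd : ∀ x ∈ C, ∀ y ∈ C, dist x y ≤ t) :
    ENNReal.ofReal (2 * π - 6 * arcsin (t / 2)) ≤ μH[1] (frontier (D C)) := by
  classical
  obtain ⟨x, H⟩ := st hC ht hd
  obtain ⟨s, hs⟩ := H.gapm hC h1 (ht.trans ((Real.sqrt_lt' two_pos).2 (by norm_num))) hd
  have fin : volume (Ioo s (s + 2 * π)) ≠ ⊤ := measure_Ioo_lt_top.ne
  have e := measureReal_inter_add_sdiff (μ := volume) (s := Ioo s (s + 2 * π))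
    (A_closed (C := C)).measurableSet fin
  rw [volume_real_Ioo_of_le (by linarith [pi_pos])] at e
  refine (ENNReal.ofReal_le_of_le_toReal (b := volume (Ioo s (s + 2 * π) ∩ A C))
    (by rw [← Measure.real]; linarith)).trans ?_
  let N : ℂ → Set ℝ := fun c => (Ioo s (s + 2 * π) ∩ (fun θ => c + u θ) ⁻¹' D C) \ Ex C
  let S : ℂ → Set ℂ := fun c => sphere c 1 \ ⋃ c' ∈ C.erase c, sphere c' 1
  have mS : ∀ c, MeasurableSet (S c) := fun c => isClosed_sphere.measurableSet.diff
    (Finset.measurableSet_biUnion _ fun _ _ => isClosed_sphere.measurableSet)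
  calc _ = volume ((Ioo s (s + 2 * π) ∩ A C) \ Ex C) :=
        (measure_sdiff_null (Ex_count.measure_zero _)).symm
    _ ≤ volume (⋃ c ∈ C, N c) := measure_mono fun θ ⟨⟨p, c, hc, q⟩, r⟩ =>
        mem_biUnion hc ⟨⟨p, q⟩, r⟩
    _ ≤ ∑ c ∈ C, volume (N c) := measure_biUnion_finset_le _ _
    _ ≤ ∑ c ∈ C, μH[1] (frontier (D C) ∩ S c) := Finset.sum_le_sum fun c hc =>
        (arc c ((measurableSet_Ioo.inter (D_closed.preimage
          (continuous_const.add u_cont)).measurableSet).diff Ex_count.measurableSet)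
          fun θ h => h.1.1).trans (measure_mono (by
            rintro _ ⟨θ, h, rfl⟩
            refine ⟨front hc h.1.2, by simp [u_norm], fun k => ?_⟩
            obtain ⟨c', h1, h2⟩ := mem_iUnion₂.1 k
            exact h.2 ⟨c, hc, c', Finset.mem_of_mem_erase h1,
              (Finset.ne_of_mem_erase h1).symm, h2⟩))
    _ = μH[1] (⋃ c ∈ C, frontier (D C) ∩ S c) := (measure_biUnion_finset
        (fun c hc c' hc' h => disjoint_left.2 fun z p q =>
          p.2.2 (mem_biUnion (Finset.mem_erase.2 ⟨h.symm, hc'⟩) q.2.1))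
        fun c _ => isClosed_frontier.measurableSet.inter (mS c)).symm
    _ ≤ _ := measure_mono (iUnion₂_subset fun _ _ => inter_subset_left)

end Pool.Agent.H.MP_fac573_co
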